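import Pool.Agent.Helper66_ML.Stmts
import Pool.Agent.Helper46_PP.Alg
import Pool.Agent.Helper66_PP.Pos1
import Pool.Agent.Helper66_D1.Stmts

/-!
# Squad ML, module LAM: the sum of the `ℓ`-elements is nilpotent on blocks of positive defect
-/

set_option autoImplicit false

open scoped BigOperators

noncomputable section

namespace Pool.Agent.PP.ML.H19

open Pool.Agent.Helper51_AWC Pool.Agent.Helper79_WRA Pool.Agent.PP

variable {ℓ : ℕ} {F H : Type} [Field F] [Group H]

theorem ellS_congr {x y : H} (h : ∀ n : ℕ, x ^ ℓ ^ n = 1 ↔ y ^ ℓ ^ n = 1) :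
    ellS ℓ F x = ellS ℓ F y := by
  classical
  unfold ellS
  simp only [h]

theorem ellS_cl : IsCl (ellS ℓ F : H → F) := by
  intro x y
  apply ellS_congr
  intro n
  rw [conj_pow]
  constructor
  · intro h
    have h2 : x ^ ℓ ^ n = y⁻¹ * (y * x ^ ℓ ^ n * y⁻¹) * y := by group
    rw [h2, h]
    group
  · intro h
    rw [h]
    group

/-- multiplication with a commuting `ℓ`-element -/
theorem ellS_mul {z s : H} (hz : z ^ ℓ = 1) (hc : Commute z s) :
    ellS ℓ F (z * s) = ellS ℓ F s := by
  classical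
  unfold ellS
  have e : (∃ n : ℕ, (z * s) ^ ℓ ^ n = 1) ↔ ∃ n : ℕ, s ^ ℓ ^ n = 1 := by
    have hz' : ∀ n : ℕ, z ^ ℓ ^ (n + 1) = 1 := by
      intro n
      rw [pow_succ', pow_mul, hz, one_pow]
    constructor
    · rintro ⟨n, hn⟩
      refine ⟨n + 1, ?_⟩
      have h1 : (z * s) ^ ℓ ^ (n + 1) = 1 := by
        rw [pow_succ, pow_mul, hn, one_pow]
      rw [hc.mul_pow, hz', one_mul] at h1
      exact h1
    · rintro ⟨n, hn⟩
      refine ⟨n + 1, ?_⟩
      rw [hc.mul_pow, hz', one_mul, pow_succ, pow_mul, hn, one_pow]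
  simp only [e]

/-- If `b (z s) = b s` for `s` commuting with `z` and `a` is supported on the centraliser, the
product is invariant under `z`. -/
theorem mulF_left_inv {z : H} {a b : H → F} (ha : ∀ t, a t ≠ 0 → Commute z t)
    (hb : ∀ s, b (z * s) = b s) (x : H) : mulF a b (z * x) = mulF a b x := by
  unfold mulF
  apply finsum_congr
  intro t
  by_cases h : a t = 0
  · rw [h, zero_mul, zero_mul]
  · have h1 : t⁻¹ * (z * x) = z * (t⁻¹ * x) := by
      have h2 : Commute z t⁻¹ := (ha t h).inv_right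
      rw [← mul_assoc, ← h2.eq, mul_assoc]
    rw [h1, hb]

/-- left translation of the first factor -/
theorem mulF_left_inv' {z : H} {a b : H → F} (ha : ∀ t, a (z * t) = a t) (x : H) :
    mulF a b (z * x) = mulF a b x := by
  unfold mulF
  rw [← finsum_comp_equiv (Equiv.mulLeft z)]
  apply finsum_congr
  intro t
  rw [Equiv.coe_mulLeft, ha]
  congr 2
  group

/-- a sum over `H` of a function which is invariant under an element of order `ℓ` is zero -/
theorem sum_inv [Finite H] (hF : GoodF ℓ F) {z : H} (hz : orderOf z = ℓ) (h : H → F)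
    (hi : ∀ t, h (z * t) = h t) : ∑ᶠ t, h t = 0 := by
  classical
  have := Fintype.ofFinite H
  have : Fact ℓ.Prime := ⟨hF.prime⟩
  have := hF.char
  have hQ : IsPGroup ℓ (Subgroup.zpowers z) := by
    apply IsPGroup.of_card (n := 1)
    rw [Nat.card_zpowers, hz, pow_one]
  have hinv : ∀ (r : Subgroup.zpowers z) (t : H), h (r • t) = h t := by
    rintro ⟨r, hr⟩ t
    obtain ⟨k, rfl⟩ := Subgroup.mem_zpowers_iff.1 hr
    change h (z ^ k * t) = h t
    have hn : ∀ n : ℕ, ∀ t, h (z ^ n * t) = h t := by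
      intro n
      induction n with
      | zero => intro t; rw [pow_zero, one_mul]
      | succ n ih => intro t; rw [pow_succ, mul_assoc, ih, hi]
    obtain ⟨n, hn' | hn'⟩ := k.eq_nat_or_neg
    · rw [hn', zpow_natCast, hn]
    · rw [hn', zpow_neg, zpow_natCast]
      rw [← hn n (((z ^ n)⁻¹) * t), mul_inv_cancel_left]
  rw [finsum_eq_sum_of_fintype, Pool.Agent.PP.H74.orbit_sum_ring hQ h hinv]
  apply Finset.sum_eq_zero
  intro t ht
  exfalso
  have h1 := (Finset.mem_filter.1 ht).2 ⟨z, Subgroup.mem_zpowers z⟩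
  have h2 : z * t = t := h1
  have h3 : z = 1 := mul_eq_right.1 h2
  rw [h3, orderOf_one] at hz
  exact hF.prime.one_lt.ne hz

/-- LAM -/
theorem lam (inv : Pool.Agent.PP.InvStmt) : LamStmt := by
  classical
  intro ℓ F _ hF H _ _ e he hp
  by_contra hcon
  have hΛ : IsCl (ellS ℓ F : H → F) := ellS_cl
  have : Fact ℓ.Prime := ⟨hF.prime⟩
  obtain ⟨u, hu, hinv⟩ := inv ℓ F hF H e (ellS ℓ F) he hΛ (fun n h => hcon ⟨n, h⟩)
  -- an element of the support with centraliser of order divisible by `ℓ`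
  have hg : ∃ g : H, e g ≠ 0 ∧ ℓ ∣ Nat.card (Subgroup.centralizer ({g} : Set H)) := by
    by_contra hno
    apply he.2.1
    refine H46.pos_dzb (b := e) he.1 hp he.1.2 (fun x hx => absurd (Subgroup.mem_top x) hx)
      (fun q _ x => he.1.1 x q) ?_
    intro x _ hx
    by_contra h
    exact hno ⟨x, h, by rwa [inf_top_eq] at hx⟩
  obtain ⟨g, hg0, hgd⟩ := hg
  obtain ⟨c, hc⟩ := exists_prime_orderOf_dvd_card' ℓ hgd
  set z : H := (c : H) with hzdef
  have hz : orderOf z = ℓ := by rw [hzdef, Subgroup.orderOf_coe, hc]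
  have hzl : z ^ ℓ = 1 := by rw [← hz]; exact pow_orderOf_eq_one z
  have hQ : IsPGroup ℓ (Subgroup.zpowers z) := by
    apply IsPGroup.of_card (n := 1)
    rw [Nat.card_zpowers, hz, pow_one]
  have hcen : ∀ t : H, t ∈ Subgroup.centralizer ((Subgroup.zpowers z : Subgroup H) : Set H) ↔
      Commute z t := by
    intro t
    rw [Subgroup.mem_centralizer_iff]
    constructor
    · intro h
      exact h z (Subgroup.mem_zpowers z)
    · rintro h _ ⟨k, rfl⟩
      exact (h.zpow_left k).eq
  have hgz : g ∈ Subgroup.centralizer ((Subgroup.zpowers z : Subgroup H) : Set H) := by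
    rw [hcen]
    have h1 := Subgroup.mem_centralizer_singleton_iff.1 c.2
    exact h1
  set ε : H → F := br (Subgroup.zpowers z) e with hε
  set Λ' : H → F := br (Subgroup.zpowers z) (ellS ℓ F) with hΛ'
  set u' : H → F := br (Subgroup.zpowers z) u with hu'
  have hε1 : ε = mulF (mulF ε Λ') u' := by
    have h1 : H66.Inv (Subgroup.zpowers z) e := H66.IsCl.inv he.1.1 _
    have h2 : H66.Inv (Subgroup.zpowers z) (ellS ℓ F) := H66.IsCl.inv hΛ _
    have h3 : H66.Inv (Subgroup.zpowers z) u := H66.IsCl.inv hu _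
    have h4 : br (Subgroup.zpowers z) (mulF e (mulF (ellS ℓ F) u)) = mulF ε (mulF Λ' u') := by
      rw [H66.br_mulF hF hQ h1 (h2.mulF h3), H66.br_mulF hF hQ h2 h3]
    rw [hinv] at h4
    rw [mulF_assoc]
    exact h4
  have hεs : ∀ t, ε t ≠ 0 → Commute z t := by
    intro t ht
    by_contra h
    apply ht
    exact H66.br_of_not_mem (fun h' => h ((hcen t).1 h'))
  have hΛz : ∀ s, Λ' (z * s) = Λ' s := by
    intro s
    by_cases h : Commute z s
    · have h1 : z * s ∈ Subgroup.centralizer ((Subgroup.zpowers z : Subgroup H) : Set H) := by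
        rw [hcen]
        exact (Commute.refl z).mul_right h
      rw [hΛ', H66.br_of_mem h1, H66.br_of_mem ((hcen s).2 h)]
      exact ellS_mul hzl h
    · have h1 : z * s ∉ Subgroup.centralizer ((Subgroup.zpowers z : Subgroup H) : Set H) := by
        rw [hcen]
        intro h'
        apply h
        have h2 : s = z⁻¹ * (z * s) := by group
        rw [h2]
        exact (Commute.refl z).inv_right.mul_right h'
      rw [hΛ', H66.br_of_not_mem h1, H66.br_of_not_mem (fun h' => h ((hcen s).1 h'))]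
  have hKz : ∀ x, mulF ε Λ' (z * x) = mulF ε Λ' x := mulF_left_inv hεs hΛz
  have hεz : ∀ x, ε (z * x) = ε x := by
    intro x
    rw [hε1]
    exact mulF_left_inv' hKz x
  have hK0 : mulF ε Λ' = 0 := by
    funext x
    change ∑ᶠ t, ε t * Λ' (t⁻¹ * x) = 0
    apply sum_inv hF hz
    intro t
    rw [hεz]
    by_cases h : ε t = 0
    · rw [h, zero_mul, zero_mul]
    · have h2 : Commute z t := hεs t h
      have h3 : z * ((z * t)⁻¹ * x) = t⁻¹ * x := by
        rw [h2.eq]
        group
      rw [← hΛz ((z * t)⁻¹ * x), h3]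
  have hε0 : ε = 0 := by
    rw [hε1, hK0]
    funext x
    change ∑ᶠ t : H, (0 : H → F) t * u' (t⁻¹ * x) = 0
    simp
  apply hg0
  have h5 : ε g = e g := H66.br_of_mem hgz
  rw [← h5, hε0]
  rfl

end Pool.Agent.PP.ML.H19
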